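import Mathlib
import Pool.Agent.Q158.EqD.Simul
import Pool.Agent.Q158.EqD.Poor
import Pool.Agent.Q158.EqD.Weyl
import Pool.Agent.TH900.YM.Meas

/-!
# The numbers `ζ(9), ζ(11), …, ζ(21)` at every finite scale

Let `D_N(y)` be the discrepancy of the numbers `y, 2 y, …, N y` modulo one; `y` is rational if and
only if `D_N(y)` does not tend to zero. One of the seven numbers `ζ(9), …, ζ(21)` is irrational (starting
file `OddZeta9To21.lean`). We prove a quantitative form which is valid at EVERY finite scale: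

1. there is a `K > 0` such that for all `N, H ≥ 1` there is an odd `j`, `9 ≤ j ≤ 21`, such that
   `D_M((a / b) ζ(j)) ≤ K H N ^ (-1/7267)` for ALL `M ≥ N` and ALL fractions `a / b ≠ 0` with
   `|a| ≤ H`, `b ≤ H`;
2. for every finite set `Y` of real numbers there are `κ, K > 0` such that for every `N` the field
   generated by the elements `y ∈ Y` with `D_M(y) > K N ^ (-κ)` for some `M ≥ N` does not contain
   all the numbers `ζ(j)`, `9 ≤ j ≤ 21`, `j` odd.

Proof. If `D_M(y) > δ` then `y` has a rational approximation with a denominator `≤ 12 / δ` and the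
error at most `16 / (δ M)`. If this happens for a multiple of each of the seven numbers, at scales `M ≥ N`, then the
seven numbers have rational approximations with a small common denominator and with errors smaller than
`MeasureZeta9To21.lean` allows.
-/

set_option autoImplicit false

open Real

namespace Pool.Agent.Results.MP_db0fbf_nt.AtEveryScale

noncomputable section

/-- The number of the `n`, `1 ≤ n ≤ N`, for which the fractional part of `n x` lies in `[a, b)`. -/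
def count (x : ℝ) (N : ℕ) (a b : ℝ) : ℕ :=
  ((Finset.Icc 1 N).filter fun n : ℕ => a ≤ Int.fract (n * x) ∧ Int.fract (n * x) < b).card

/-- The discrepancy of `x, 2 x, …, N x` modulo one: the supremum over the intervals
`[a, b) ⊆ [0, 1)` of the difference between the proportion of the `n ≤ N` with `n x` in `[a, b)`
modulo one and the length of the interval. -/
def discrepancy (x : ℝ) (N : ℕ) : ℝ :=
  sSup {d | ∃ a b : ℝ, 0 ≤ a ∧ a ≤ b ∧ b ≤ 1 ∧ d = |(count x N a b : ℝ) / N - (b - a)|}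

/-- `ζ(j)` -/
def zeta (j : ℕ) : ℝ := ∑' n : ℕ, 1 / ((n : ℝ) + 1) ^ j

/-- The discrepancy of `y` is at most `K N ^ (-κ)` at all the scales `M ≥ N`. -/
def Uniform (κ K : ℝ) (N : ℕ) (y : ℝ) : Prop :=
  ∀ M : ℕ, N ≤ M → discrepancy y M ≤ K * (N : ℝ) ^ (-κ)

/-- The field generated by the elements `y` of `Y` with `D_M(y) > K N ^ (-κ)` for some `M ≥ N`. -/
def badField (Y : Finset ℝ) (κ K : ℝ) (N : ℕ) : Subfield ℝ :=
  Subfield.closure {y | y ∈ Y ∧ ¬ Uniform κ K N y}

/-- the measure, for families indexed by `Fin 7` -/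
lemma meas : ∃ c : ℝ, 0 < c ∧ ∀ (q : ℕ) (p : Fin 7 → ℤ), 0 < q →
    ∃ i : Fin 7, c ≤ (q : ℝ) ^ (1038 : ℕ) * |zeta (9 + 2 * (i : ℕ)) - p i / q| := by
  obtain ⟨c, hc, hm⟩ := Pool.Agent.TH900.YM.measure
  refine ⟨c, hc, fun q p hq => ?_⟩
  obtain ⟨j, hj, hle⟩ := hm (fun j => if h : (j - 9) / 2 < 7 then p ⟨(j - 9) / 2, h⟩ else 0) q hq
  have hqp : (0 : ℝ) < q := by exact_mod_cast hq
  simp only [Finset.mem_insert, Finset.mem_singleton] at hj
  have hlt : (j - 9) / 2 < 7 := by omega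
  refine ⟨⟨(j - 9) / 2, hlt⟩, ?_⟩
  rw [dif_pos hlt] at hle
  rw [div_le_iff₀ (by positivity)] at hle
  have e1 : 9 + 2 * ((j - 9) / 2) = j := by omega
  dsimp only
  rw [e1, mul_comm]
  exact hle

theorem result :
    (∃ K : ℝ, 0 < K ∧ ∀ N H : ℕ, 0 < N → 0 < H → ∃ j : ℕ, Odd j ∧ 9 ≤ j ∧ j ≤ 21 ∧
      ∀ a b : ℤ, a ≠ 0 → 0 < b → |a| ≤ H → b ≤ H → ∀ M : ℕ, N ≤ M →
        discrepancy (a / b * zeta j) M ≤ K * H * (N : ℝ) ^ (-(1 / 7267 : ℝ))) ∧
    (∀ Y : Finset ℝ, ∃ κ K : ℝ, 0 < κ ∧ 0 < K ∧ ∀ N : ℕ, 0 < N →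
      ∃ j : ℕ, Odd j ∧ 9 ≤ j ∧ j ≤ 21 ∧ zeta j ∉ badField Y κ K N) ∧
    -- the discrepancy tends to zero exactly for the irrational numbers
    (∀ x : ℝ, Filter.Tendsto (fun N : ℕ => discrepancy x N) Filter.atTop (nhds 0) ↔
      Irrational x) := by
  obtain ⟨c, hc, hm⟩ := meas
  refine ⟨?_, ?_, Pool.Agent.Q158.EqD.tendsto_iff⟩
  · obtain ⟨K, hK, h⟩ := Pool.Agent.Q158.EqD.simul_disc
      (fun i : Fin 7 => zeta (9 + 2 * (i : ℕ))) c 1038 hc hm
    refine ⟨K, hK, fun N H hN hH => ?_⟩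
    obtain ⟨i, hi⟩ := h N H hN hH
    refine ⟨9 + 2 * (i : ℕ), ⟨4 + i, by ring⟩, by omega, by omega, ?_⟩
    intro a b ha hb haH hbH M hM
    have := hi a b ha hb haH hbH M hM
    have e : (((Fintype.card (Fin 7) * 1038 + 1 : ℕ)) : ℝ) = 7267 := by
      rw [Fintype.card_fin]; norm_num
    rw [e] at this
    exact this
  · intro Y
    obtain ⟨κ, K, h1, h2, h3⟩ := Pool.Agent.Q158.EqD.bad_field Y
    refine ⟨κ, K, h1, h2, fun N hN => ?_⟩
    have hset : badField Y κ K N = Subfield.closure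
        {y | y ∈ Y ∧ ∃ M : ℕ, N ≤ M ∧ K * (N : ℝ) ^ (-κ) < Pool.Agent.Q158.EqD.disc y M} := by
      unfold badField Uniform
      congr 1
      ext y
      constructor
      · rintro ⟨hy, h⟩
        push Not at h
        exact ⟨hy, h⟩
      · rintro ⟨hy, h⟩
        refine ⟨hy, ?_⟩
        push Not
        exact h
    rw [hset]
    obtain ⟨i, hi⟩ := (h3 N hN).fintype (fun i : Fin 7 => zeta (9 + 2 * (i : ℕ))) c 1038 hc
      (by norm_num) (by
        intro q p hq
        obtain ⟨i, hi⟩ := hm q p hq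
        refine ⟨i, ?_⟩
        have e2 : (q : ℝ) ^ (1038 : ℝ) = (q : ℝ) ^ (1038 : ℕ) := by
          rw [← Real.rpow_natCast]; norm_num
        rw [e2]
        exact hi)
    exact ⟨9 + 2 * (i : ℕ), ⟨4 + i, by ring⟩, by omega, by omega, hi⟩

end

end Pool.Agent.Results.MP_db0fbf_nt.AtEveryScale
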