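import Pool.Agent.Q138.PS.VX
import Pool.Agent.Q138.PS.VY
import Pool.Agent.Q138.PS.WB
import Pool.Agent.Q138.AI.Rdb0fbf

/-!
# `ζ(9)` and the truncated integrals at the points `1/t`, `t` close to `α P(n)`

For integers `t ≥ 2` let `I(t) = (1/8!) ∫_{1/t}^1 log(1/v)^8 / (1-v) dv` and `q_i(t) = log(t)^i Li_{9-i}(1/t)`, `0 ≤ i ≤ 8`; then
`ζ(9) = I(t) + ∑_i q_i(t) / i!`. Let `S` be any countable set of complex numbers.

Let `q ≥ 2`. Outside a set of real numbers of Hausdorff dimension at most `q / (q + 1 / (q 2 ^ (q - 1)))` (that is `8 / 9` for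
`q = 2`) every `α > 0` has the following property. There is `η > 0` such that the properties `A` of integers named below are
RARE along `α P(n)`: there is `κ > 0` such that for all large `N` and ALL integral polynomials `P` of degree `q` with positive
leading coefficient and coefficients of size at most `N ^ η`, for all but `N ^ (1 - κ)` of the `n ≤ N`, NO integer `t ≥ b` (`b = 2`
or `3`) with `|t - ⌊α P(n)⌋| ≤ N ^ κ` has the property `A`.

* `ζ(9)` is irrational if and only if it is rare that `I(t)` is a rational combination of `1` and the nine products `q_i(t)`;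
* `ζ(9)` is transcendental if and only if for each number field `K` it is rare that `I(t)` is in `K + ∑ K q_i(t)`;
* for each finitely generated rational space `K ∋ 1` inside the rational span of `S`: `ζ(9) ∉ K` if and only if it is rare that
  `I(t)` is in `K + ∑ K q_i(t)`;
* for each finitely generated rational space `K` inside the rational span of `S` it is rare that there is a relation
  `a I(t) + κ + ∑ c_i q_i(t) = 0` with coefficients in `K` other than those with `κ = -a ζ(9)` and `i! c_i = a` for all `i`.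
-/

set_option autoImplicit false

namespace Pool.Agent.Results.MP_db0fbf_nt.TruncationsNearRealMultiples

open Filter Module Pool.Agent.Q138.PS Pool.Agent.Q138.AI.Rdb0fbf

/-- **Theorem.** -/
theorem result (q : ℕ) (hq : 2 ≤ q) (S : Set ℂ) (hS : S.Countable) :
    ∃ E : Set ℝ, dimH E ≤ ENNReal.ofReal (q / (q + 1 / ((q : ℝ) * 2 ^ (q - 1)))) ∧ ∀ α : ℝ, 0 < α → α ∉ E →
      ∃ η : ℝ, 0 < η ∧
      (Irrational zeta9 ↔ Rare q α η 2 RationalRelation) ∧
      (Transcendental ℚ zeta9 ↔ ∀ K : IntermediateField ℚ ℂ, FiniteDimensional ℚ K →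
        Rare q α η 2 (Inside (Subalgebra.toSubmodule K.toSubalgebra))) ∧
      ∀ K : Submodule ℚ ℂ, K.FG → K ≤ Submodule.span ℚ S →
        ((1 : ℂ) ∈ K → (((zeta9 : ℝ) : ℂ) ∉ K ↔ Rare q α η 2 (Inside K))) ∧
        Rare q α η 2 fun n => ¬ OnlyRelation K n := by
  obtain ⟨-, ⟨-, h2⟩, ⟨h3, h4⟩, h5, -⟩ := Pool.Agent.Q138.AI.Rdb0fbf.result
  set S' : Set ℂ := S ∪ {x : ℂ | IsAlgebraic ℚ x} with hS'
  have hS'c : S'.Countable := hS.union alg_countable
  have hc := countFG S' hS'c
  obtain ⟨E, hE, hg⟩ := rare_ae (ι := Unit ⊕ ({K : Submodule ℚ ℂ // K.FG ∧ K ≤ Submodule.span ℚ S'} × Bool)) q hq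
    (Sum.elim (fun _ => RationalRelation) (fun i n => if i.2 then Inside i.1.1 n else ¬ OnlyRelation i.1.1 n))
  refine ⟨E, hE, fun α hα hαE => ?_⟩
  obtain ⟨η, hη, h1⟩ := hg α hα hαE
  have k1 : ∀ K : Submodule ℚ ℂ, K.FG → K ≤ Submodule.span ℚ S' → (1 : ℂ) ∈ K → ((zeta9 : ℝ) : ℂ) ∉ K →
      Rare q α η 2 (Inside K) := by
    intro K hK hKS hK1 hz
    refine (h1 (Sum.inr (⟨K, hK, hKS⟩, true)) 2 ?_).mono le_rfl fun t _ ht => by simpa using ht
    refine Few.mono (((h3 K hK hK1).2).1 hz) fun n _ hn => ?_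
    simpa using hn
  have k2 : ∀ K : Submodule ℚ ℂ, K.FG → (1 : ℂ) ∈ K → Rare q α η 2 (Inside K) → ((zeta9 : ℝ) : ℂ) ∉ K := by
    intro K hK hK1 h
    exact ((h3 K hK hK1).1).2 (h.exists_not hη)
  have k3 : ∀ K : Submodule ℚ ℂ, K.FG → K ≤ Submodule.span ℚ S' → Rare q α η 2 fun n => ¬ OnlyRelation K n := by
    intro K hK hKS
    refine (h1 (Sum.inr (⟨K, hK, hKS⟩, false)) 2 ?_).mono le_rfl fun t _ ht => by simpa using ht
    obtain ⟨g, θ, hθ⟩ := fg_range K hK
    obtain ⟨C, c, hc, h6⟩ := h5 g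
    refine Few.mono (A := fun n => ¬ OnlyRelation K n) ⟨C, c, hc, fun T hT => ?_⟩ fun n _ hn => by simpa using hn
    have h7 := h6 θ T hT
    rwa [hθ] at h7
  have hsub : Submodule.span ℚ S ≤ Submodule.span ℚ S' := Submodule.span_mono Set.subset_union_left
  refine ⟨η, hη, ⟨fun h => h1 (Sum.inl ()) 2 (h2.1 h), fun h => ?_⟩, ⟨fun h K hK => ?_, fun h => ?_⟩, fun K hK hKS => ⟨fun hK1 =>
    ⟨k1 K hK (hKS.trans hsub) hK1, k2 K hK hK1⟩, k3 K hK (hKS.trans hsub)⟩⟩
  · exact (Pool.Agent.Q138.AI.Rdb0fbf.result.2.1.1).2 (h.exists_not hη)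
  · obtain ⟨f1, f2⟩ := field_fg K hK
    have f3 : (1 : ℂ) ∈ Subalgebra.toSubmodule K.toSubalgebra := K.one_mem
    refine k1 _ f1 (f2.trans (Submodule.span_mono Set.subset_union_right)) f3 ?_
    exact ((h3 _ f1 f3).1).2 (h4.1 h K hK)
  · exact h4.2 fun K hK => (h K hK).exists_not hη

end Pool.Agent.Results.MP_db0fbf_nt.TruncationsNearRealMultiples
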